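import Mathlib

set_option linter.unusedSimpArgs false

namespace Pool.Agent.H.MP_08c0df_gt

structure DR (n : ℕ) (R : Type) [CommRing R] where
  d : Fin n → R → R
  add : ∀ i f g, d i (f + g) = d i f + d i g
  mul : ∀ i f g, d i (f * g) = d i f * g + f * d i g
  comm : ∀ i j f, d i (d j f) = d j (d i f)
  two : ∀ f : R, 2 * f = 0 → f = 0
  three : ∀ f : R, 3 * f = 0 → f = 0
  sq : ∀ f g : R, f * f + g * g = 0 → f = 0

namespace DR

variable {n : ℕ} {R : Type} [CommRing R] (D : DR n R)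

lemma zero (i : Fin n) : D.d i 0 = 0 := by
  have := D.add i 0 0
  rw [add_zero] at this
  linear_combination -this

lemma one (i : Fin n) : D.d i 1 = 0 := by
  have := D.mul i 1 1
  rw [mul_one] at this
  linear_combination -this

lemma neg (i : Fin n) (f : R) : D.d i (-f) = -D.d i f := by
  have := D.add i f (-f)
  rw [add_neg_cancel, D.zero] at this
  linear_combination -this

lemma sub (i : Fin n) (f g : R) : D.d i (f - g) = D.d i f - D.d i g := by
  rw [sub_eq_add_neg, D.add, D.neg]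
  ring

lemma n2 (i : Fin n) : D.d i 2 = 0 := by
  rw [← one_add_one_eq_two, D.add, D.one, add_zero]

lemma n3 (i : Fin n) : D.d i 3 = 0 := by
  rw [show (3 : R) = 2 + 1 by norm_num, D.add, D.one, D.n2, add_zero]

lemma n6 (i : Fin n) : D.d i 6 = 0 := by
  rw [show (6 : R) = 3 + 3 by norm_num, D.add, D.n3, add_zero]

include D in
lemma six (f : R) (h : 6 * f = 0) : f = 0 := by
  apply D.two
  apply D.three
  linear_combination h

lemma dz {f : R} (h : f = 0) (i : Fin n) : D.d i f = 0 := by rw [h, D.zero]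

end DR

open Filter Topology

abbrev V (n : ℕ) := Fin n → ℝ

variable {n : ℕ}

noncomputable def pd (i : Fin n) (f : V n → ℝ) (x : V n) : ℝ := fderiv ℝ f x (Pi.single i 1)

def S (p : V n) (f : V n → ℝ) : Prop := ContDiffAt ℝ (⊤ : ℕ∞) f p

lemma S.pd {p : V n} {f : V n → ℝ} (h : S p f) (i : Fin n) : S p (pd i f) := by
  have h1 : ContDiffAt ℝ (⊤ : ℕ∞) (fderiv ℝ f) p := ContDiffAt.fderiv_right h (by norm_cast)
  exact h1.clm_apply contDiffAt_const

lemma S.ev {p : V n} {f : V n → ℝ} (h : S p f) : ∀ᶠ x in 𝓝 p, ContDiffAt ℝ 2 f x :=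
  (ContDiffAt.of_le h (by norm_cast)).eventually (by simp)

lemma pd_congr {p : V n} {f g : V n → ℝ} (i : Fin n) (h : f =ᶠ[𝓝 p] g) : pd i f =ᶠ[𝓝 p] pd i g := by
  filter_upwards [h.fderiv (𝕜 := ℝ)] with x hx
  simp [pd, hx]

lemma pd_add (m : Fin n) (f g : V n → ℝ) (x : V n) (hf : DifferentiableAt ℝ f x)
    (hg : DifferentiableAt ℝ g x) : pd m (fun z => f z + g z) x = pd m f x + pd m g x := by
  unfold pd
  rw [fderiv_fun_add hf hg]
  rfl

lemma pd_sub (m : Fin n) (f g : V n → ℝ) (x : V n) (hf : DifferentiableAt ℝ f x)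
    (hg : DifferentiableAt ℝ g x) : pd m (fun z => f z - g z) x = pd m f x - pd m g x := by
  unfold pd
  rw [fderiv_fun_sub hf hg]
  rfl

lemma pd_mul (m : Fin n) (f g : V n → ℝ) (x : V n) (hf : DifferentiableAt ℝ f x)
    (hg : DifferentiableAt ℝ g x) :
    pd m (fun z => f z * g z) x = pd m f x * g x + f x * pd m g x := by
  unfold pd
  rw [fderiv_fun_mul hf hg]
  simp only [add_apply, smul_apply, smul_eq_mul]
  ring

lemma pd_const (m : Fin n) (c : ℝ) (x : V n) : pd m (fun _ => c) x = 0 := by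
  simp [pd]

lemma pd_comm (i j : Fin n) (f : V n → ℝ) (x : V n) (hf : ContDiffAt ℝ 2 f x) :
    pd i (pd j f) x = pd j (pd i f) x := by
  have h1 : DifferentiableAt ℝ (fderiv ℝ f) x :=
    (hf.fderiv_right (m := 1) (by norm_num)).differentiableAt (by norm_num)
  have h2 := (hf.isSymmSndFDerivAt (by simp)).eq (Pi.single i 1) (Pi.single j 1)
  have e : ∀ k l : Fin n, pd k (pd l f) x
      = fderiv ℝ (fderiv ℝ f) x (Pi.single k 1) (Pi.single l 1) := by
    intro k l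
    unfold pd
    rw [fderiv_clm_apply h1 (by fun_prop)]
    simp
  rw [e, e, h2]

def Sm (p : V n) : Subring (Germ (𝓝 p) ℝ) where
  carrier := {γ | ∃ f : V n → ℝ, S p f ∧ γ = ↑f}
  mul_mem' := by
    rintro _ _ ⟨f, hf, rfl⟩ ⟨g, hg, rfl⟩
    exact ⟨fun x => f x * g x, ContDiffAt.mul hf hg, rfl⟩
  one_mem' := ⟨fun _ => 1, contDiffAt_const, rfl⟩
  add_mem' := by
    rintro _ _ ⟨f, hf, rfl⟩ ⟨g, hg, rfl⟩
    exact ⟨fun x => f x + g x, ContDiffAt.add hf hg, rfl⟩
  zero_mem' := ⟨fun _ => 0, contDiffAt_const, rfl⟩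
  neg_mem' := by
    rintro _ ⟨f, hf, rfl⟩
    exact ⟨fun x => -f x, ContDiffAt.neg hf, rfl⟩

def mk {p : V n} (f : V n → ℝ) (hf : S p f) : Sm p := ⟨↑f, f, hf, rfl⟩

lemma mk_eq {p : V n} {f g : V n → ℝ} {hf : S p f} {hg : S p g} :
    mk f hf = mk g hg ↔ f =ᶠ[𝓝 p] g := by
  rw [Subtype.ext_iff]
  exact Germ.coe_eq

lemma ex_mk {p : V n} (γ : Sm p) : ∃ f hf, γ = mk f hf := by
  obtain ⟨_, f, hf, rfl⟩ := γ
  exact ⟨f, hf, rfl⟩

lemma mk_add {p : V n} (f g : V n → ℝ) (hf : S p f) (hg : S p g) :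
    mk f hf + mk g hg = mk (fun x => f x + g x) (ContDiffAt.add hf hg) := rfl

lemma mk_sub {p : V n} (f g : V n → ℝ) (hf : S p f) (hg : S p g) :
    mk f hf - mk g hg = mk (fun x => f x - g x) (ContDiffAt.sub hf hg) := rfl

lemma mk_neg {p : V n} (f : V n → ℝ) (hf : S p f) :
    -mk f hf = mk (fun x => -f x) (ContDiffAt.neg hf) := rfl

lemma mk_mul {p : V n} (f g : V n → ℝ) (hf : S p f) (hg : S p g) :
    mk f hf * mk g hg = mk (fun x => f x * g x) (ContDiffAt.mul hf hg) := rfl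

lemma mk_zero {p : V n} : (0 : Sm p) = mk (fun _ => 0) contDiffAt_const := rfl

lemma mk_one {p : V n} : (1 : Sm p) = mk (fun _ => 1) contDiffAt_const := rfl

lemma mk_two {p : V n} : (2 : Sm p) = mk (fun _ => 1 + 1) contDiffAt_const := by
  rw [← one_add_one_eq_two]
  rfl

lemma mk_three {p : V n} : (3 : Sm p) = mk (fun _ => 1 + 1 + 1) contDiffAt_const := by
  rw [show (3 : Sm p) = 1 + 1 + 1 by norm_num]
  rfl

lemma mk_six {p : V n} : (6 : Sm p) = mk (fun _ => 1 + 1 + 1 + 1 + 1 + 1) contDiffAt_const := by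
  rw [show (6 : Sm p) = 1 + 1 + 1 + 1 + 1 + 1 by norm_num]
  rfl

noncomputable def dg (p : V n) (i : Fin n) (γ : Sm p) : Sm p :=
  ⟨Germ.map' (pd i) (fun _ _ h => pd_congr i h) γ.1, by
    obtain ⟨_, f, hf, rfl⟩ := γ
    exact ⟨pd i f, hf.pd i, rfl⟩⟩

lemma dg_mk {p : V n} (i : Fin n) (f : V n → ℝ) (hf : S p f) :
    dg p i (mk f hf) = mk (pd i f) (hf.pd i) := rfl

noncomputable def DD (p : V n) : DR n (Sm p) where
  d := dg p
  add := by
    intro i f g
    obtain ⟨f, hf, rfl⟩ := ex_mk f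
    obtain ⟨g, hg, rfl⟩ := ex_mk g
    simp only [mk_add, dg_mk, mk_eq]
    filter_upwards [hf.ev, hg.ev] with x h1 h2
    exact pd_add i f g x (h1.differentiableAt (by norm_num)) (h2.differentiableAt (by norm_num))
  mul := by
    intro i f g
    obtain ⟨f, hf, rfl⟩ := ex_mk f
    obtain ⟨g, hg, rfl⟩ := ex_mk g
    simp only [mk_add, mk_mul, dg_mk, mk_eq]
    filter_upwards [hf.ev, hg.ev] with x h1 h2
    exact pd_mul i f g x (h1.differentiableAt (by norm_num)) (h2.differentiableAt (by norm_num))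
  comm := by
    intro i j f
    obtain ⟨f, hf, rfl⟩ := ex_mk f
    simp only [dg_mk, mk_eq]
    filter_upwards [hf.ev] with x h1
    exact pd_comm i j f x h1
  two := by
    intro f
    obtain ⟨f, hf, rfl⟩ := ex_mk f
    simp only [mk_two, mk_mul, mk_zero, mk_eq]
    intro h
    filter_upwards [h] with x hx
    linarith
  three := by
    intro f
    obtain ⟨f, hf, rfl⟩ := ex_mk f
    simp only [mk_three, mk_mul, mk_zero, mk_eq]
    intro h
    filter_upwards [h] with x hx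
    linarith
  sq := by
    intro f g
    obtain ⟨f, hf, rfl⟩ := ex_mk f
    obtain ⟨g, hg, rfl⟩ := ex_mk g
    simp only [mk_add, mk_mul, mk_zero, mk_eq]
    intro h
    filter_upwards [h] with x hx
    nlinarith [mul_self_nonneg (f x), mul_self_nonneg (g x), mul_self_eq_zero (a := f x)]

lemma DD_d (p : V n) : (DD p).d = dg p := rfl

def dl (i j : Fin n) : ℝ := if i = j then 1 else 0

lemma pd_co (m j : Fin n) (x : V n) : pd m (fun z : V n => z j) x = dl m j := by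
  have h1 : HasFDerivAt (fun z : V n => z j)
      (ContinuousLinearMap.proj (R := ℝ) (φ := fun _ : Fin n => ℝ) j) x := hasFDerivAt_apply j x
  unfold pd
  rw [h1.fderiv]
  simp [dl, Pi.single_apply, eq_comm]

lemma pd_comp (i : Fin n) (φ : ℝ → ℝ) (f : V n → ℝ) (x : V n) (hf : DifferentiableAt ℝ f x)
    (hφ : DifferentiableAt ℝ φ (f x)) :
    pd i (fun z => φ (f z)) x = deriv φ (f x) * pd i f x := by
  unfold pd
  rw [show (fun z => φ (f z)) = φ ∘ f from rfl,
    (hφ.hasDerivAt.comp_hasFDerivAt x hf.hasFDerivAt).fderiv]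
  simp

lemma unit_mk {p : V n} {f : V n → ℝ} (hf : S p f) (h : f p ≠ 0) : IsUnit (mk f hf) := by
  refine IsUnit.of_mul_eq_one (mk (fun x => (f x)⁻¹) (ContDiffAt.inv hf h)) ?_
  rw [mk_mul, mk_one, mk_eq]
  filter_upwards [(ContDiffAt.continuousAt hf).eventually_ne h] with x hx
  exact mul_inv_cancel₀ hx

lemma loc (p : V n) (f g : Sm p) (h : IsUnit (f + g)) : IsUnit f ∨ IsUnit g := by
  obtain ⟨f, hf, rfl⟩ := ex_mk f
  obtain ⟨g, hg, rfl⟩ := ex_mk g
  obtain ⟨k, hk⟩ := h.exists_right_inv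
  obtain ⟨k, hk', rfl⟩ := ex_mk k
  rw [mk_add, mk_mul, mk_one, mk_eq] at hk
  have := hk.self_of_nhds
  by_cases h1 : f p = 0
  · refine Or.inr (unit_mk hg fun h2 => ?_)
    simp [h1, h2] at this
  · exact Or.inl (unit_mk hf h1)

lemma S.comp {p : V n} {f : V n → ℝ} {φ : ℝ → ℝ} (hf : S p f) (hφ : ContDiffAt ℝ (⊤ : ℕ∞) φ (f p)) :
    S p (fun z => φ (f z)) := ContDiffAt.comp p hφ hf

lemma cd_deriv {φ : ℝ → ℝ} {t : ℝ} (h : ContDiffAt ℝ (⊤ : ℕ∞) φ t) :
    ContDiffAt ℝ (⊤ : ℕ∞) (deriv φ) t :=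
  (ContDiffAt.fderiv_right (m := (⊤ : ℕ∞)) h (by norm_cast)).clm_apply contDiffAt_const

lemma sco (p : V n) (j : Fin n) : S p (fun z => z j) := (contDiff_apply ℝ ℝ j).contDiffAt

end Pool.Agent.H.MP_08c0df_gt
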