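import Pool.Agent.H.MP_08c0df_gt.A

set_option linter.unusedSimpArgs false

namespace Pool.Agent.H.MP_08c0df_gt

open Filter Topology

section
variable {R : Type} [CommRing R]

lemma br {u v : R → R} (hu : ∀ f g, u (f * g) = u f * g + f * u g)
    (hv : ∀ f g, v (f * g) = v f * g + f * v g) {X Y Z : R} (h1 : u Z = Y * u X)
    (h2 : v Z = Y * v X) : u (v Z) - v (u Z) - Y * (u (v X) - v (u X)) = u Y * v X - v Y * u X := by
  rw [h1, h2, hu, hv]
  ring

theorem key (D : DR 6 R) {a b c X Y Z : R} (ha : ∀ i, D.d i a = if i = 1 then 1 else 0)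
    (hb : ∀ i, D.d i b = if i = 3 then 1 else 0) (hc : ∀ i, D.d i c = if i = 4 then 1 else 0)
    (h1 : D.d 0 Z + a * D.d 2 Z = Y * (D.d 0 X + a * D.d 2 X)) (h2 : D.d 1 Z = Y * D.d 1 X)
    (h3 : D.d 3 Z + b * c * D.d 2 Z + c * D.d 5 Z
      = Y * (D.d 3 X + b * c * D.d 2 X + c * D.d 5 X)) (h4 : D.d 4 Z = Y * D.d 4 X)
    (hu : IsUnit (D.d 2 Z - Y * D.d 2 X)) : (1 : R) = 0 := by
  obtain ⟨e1, he1⟩ : ∃ e1 : R → R, ∀ f, e1 f = D.d 0 f + a * D.d 2 f := ⟨_, fun _ => rfl⟩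
  obtain ⟨e2, he2⟩ : ∃ e2 : R → R, ∀ f, e2 f = D.d 3 f + b * c * D.d 2 f + c * D.d 5 f :=
    ⟨_, fun _ => rfl⟩
  obtain ⟨g, hg⟩ : ∃ g : R → R, ∀ f, g f = b * D.d 2 f + D.d 5 f := ⟨_, fun _ => rfl⟩
  have m1 : ∀ f g, e1 (f * g) = e1 f * g + f * e1 g := fun f g => by
    simp only [he1, D.mul]
    ring
  have m2 : ∀ f g, e2 (f * g) = e2 f * g + f * e2 g := fun f g => by
    simp only [he2, D.mul]
    ring
  rw [← he1, ← he1] at h1
  rw [← he2, ← he2] at h3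
  have c1 : ∀ f, D.d 1 (e1 f) - e1 (D.d 1 f) = D.d 2 f := fun f => by
    simp [he1, D.add, D.mul, ha, D.comm 1 0, D.comm 2 1]
  have c2 : ∀ f, e1 (e2 f) - e2 (e1 f) = 0 := fun f => by
    simp [he1, he2, D.add, D.mul, ha, hb, hc, D.comm 3 0, D.comm 2 0, D.comm 5 0, D.comm 3 2,
      D.comm 5 2]
    ring
  have c3 : ∀ f, e1 (D.d 4 f) - D.d 4 (e1 f) = 0 := fun f => by
    simp [he1, D.add, D.mul, ha, D.comm 4 0, D.comm 4 2]
  have c4 : ∀ f, D.d 1 (e2 f) - e2 (D.d 1 f) = 0 := fun f => by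
    simp [he2, D.add, D.mul, hb, hc, D.comm 3 1, D.comm 2 1, D.comm 5 1]
  have c5 : ∀ f, D.d 1 (D.d 4 f) - D.d 4 (D.d 1 f) = 0 := fun f => by
    simp [D.comm 4 1]
  have c6 : ∀ f, D.d 4 (e2 f) - e2 (D.d 4 f) = g f := fun f => by
    simp [he2, hg, D.add, D.mul, hb, hc, D.comm 4 3, D.comm 4 2, D.comm 5 4]
    ring
  have c7 : ∀ f, e2 (g f) - g (e2 f) = D.d 2 f := fun f => by
    simp [he2, hg, D.add, D.mul, hb, hc, D.comm 3 2, D.comm 5 2, D.comm 5 3]
    ring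
  have b1 := br (D.mul 1) m1 h2 h1
  have b2 := br m1 m2 h1 h3
  have b3 := br m1 (D.mul 4) h1 h4
  have b4 := br (D.mul 1) m2 h2 h3
  have b5 := br (D.mul 1) (D.mul 4) h2 h4
  rw [c1, c1] at b1
  rw [c2, c2] at b2
  rw [c3, c3] at b3
  rw [c4, c4] at b4
  rw [c5, c5] at b5
  have cu : ∀ f : R, (D.d 2 Z - Y * D.d 2 X) * f = 0 → f = 0 :=
    fun f hf => (hu.mul_right_eq_zero).1 hf
  have x2 : e2 X = 0 := cu _ (by linear_combination e2 X * b1 - e1 X * b4 + D.d 1 X * b2)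
  have x4 : D.d 4 X = 0 := cu _ (by linear_combination D.d 4 X * b1 - e1 X * b5 + D.d 1 X * b3)
  have z0 : e2 0 = 0 := by simp [he2, D.zero]
  have g0 : g 0 = 0 := by simp [hg, D.zero]
  have fin : ∀ f, e2 f = 0 → D.d 4 f = 0 → D.d 2 f = 0 := fun f k1 k2 => by
    have : g f = 0 := by rw [← c6, k1, k2, D.zero, z0, sub_zero]
    rw [← c7, this, k1, z0, g0, sub_zero]
  have zx := fin X x2 x4
  have zz := fin Z (by rw [h3, x2, mul_zero]) (by rw [h4, x4, mul_zero])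
  exact cu _ (by rw [zx, zz]; ring)

end

def E (i : Fin 4) (x : V 6) : V 6 :=
  ![![1, 0, x 1, 0, 0, 0], ![0, 1, 0, 0, 0, 0], ![0, 0, x 3 * x 4, 1, 0, x 4],
    ![0, 0, 0, 0, 1, 0]] i

noncomputable def pr (i : Fin 6) : V 6 →L[ℝ] ℝ := ContinuousLinearMap.proj i

noncomputable def L (i : Fin 2) (x : V 6) : V 6 →L[ℝ] ℝ :=
  ![pr 2 - x 1 • pr 0 - (x 3 * x 4) • pr 3, pr 5 - x 4 • pr 3] i

def ZZ (i : Fin 2) (_ : V 6) : V 6 := ![![0, 0, 1, 0, 0, 0], ![0, 0, 0, 0, 0, 1]] i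

lemma mem_D (x v : V 6) : v ∈ Submodule.span ℝ (Set.range fun i => E i x) ↔
    v 2 = x 1 * v 0 + x 3 * x 4 * v 3 ∧ v 5 = x 4 * v 3 := by
  rw [Submodule.mem_span_range_iff_exists_fun]
  constructor
  · rintro ⟨c, rfl⟩
    simp [E, Fin.sum_univ_four]
    constructor <;> ring
  · rintro ⟨h1, h2⟩
    refine ⟨![v 0, v 1, v 3, v 4], ?_⟩
    ext i
    fin_cases i <;> simp [E, Fin.sum_univ_four, h1, h2] <;> ring

lemma fd_eq (f : V 6 → ℝ) (x v : V 6) : fderiv ℝ f x v = ∑ i, v i * pd i f x := by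
  have e : v = ∑ i, v i • (Pi.single i (1 : ℝ) : V 6) := by
    ext j
    simp [Finset.sum_apply, Pi.single_apply]
  conv_lhs => rw [e, map_sum]
  simp [pd]

theorem noiso (p : V 6) (U : Set (V 6)) (hU : IsOpen U) (hp : p ∈ U) (φ : V 6 → V 6)
    (hφ : ContDiffOn ℝ (⊤ : ℕ∞) φ U)
    (h : ∀ x ∈ U, ∀ v, v ∈ Submodule.span ℝ (Set.range fun i => E i x) ↔
      fderiv ℝ φ x v 2 = φ x 1 * fderiv ℝ φ x v 0 ∧ fderiv ℝ φ x v 5 = φ x 4 * fderiv ℝ φ x v 3) :
    False := by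
  have hn := hU.mem_nhds hp
  have sφ : ∀ i, S p (fun z => φ z i) := fun i => contDiffAt_pi.1 (hφ.contDiffAt hn) i
  have fd : ∀ x ∈ U, ∀ v i, fderiv ℝ φ x v i = ∑ j, v j * pd j (fun z => φ z i) x := by
    intro x hx v i
    have hd : DifferentiableAt ℝ φ x :=
      (hφ.contDiffAt (hU.mem_nhds hx)).differentiableAt (by simp)
    rw [← fd_eq, fderiv_apply hd i]
    rfl
  have co : ∀ j i, (DD p).d i (mk _ (sco p j)) = if i = j then 1 else 0 := by
    intro j i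
    split_ifs with hij <;> simp only [DD_d, dg_mk, mk_one, mk_zero, mk_eq] <;>
      exact Eventually.of_forall fun x => by simp [pd_co, dl, hij]
  have hE : ∀ x ∈ U, ∀ k, fderiv ℝ φ x (E k x) 2 = φ x 1 * fderiv ℝ φ x (E k x) 0 ∧
      fderiv ℝ φ x (E k x) 5 = φ x 4 * fderiv ℝ φ x (E k x) 3 := fun x hx k =>
    (h x hx _).1 (Submodule.subset_span ⟨k, rfl⟩)
  have main : ∀ i j k : Fin 6, (∀ x ∈ U, ∀ l, fderiv ℝ φ x (E l x) k = φ x j * fderiv ℝ φ x (E l x) i)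
      → pd 2 (fun z => φ z k) p = φ p j * pd 2 (fun z => φ z i) p := by
    intro i j k hh
    by_contra hne
    have := key (DD p) (co 1) (co 3) (co 4) (X := mk _ (sφ i)) (Y := mk _ (sφ j))
      (Z := mk _ (sφ k)) ?_ ?_ ?_ ?_ ?_
    · rw [mk_one, mk_zero, mk_eq] at this
      exact one_ne_zero this.self_of_nhds
    · simp only [DD_d, dg_mk, mk_mul, mk_add, mk_eq]
      filter_upwards [hn] with x hx
      have := hh x hx 0
      simpa [fd x hx, E, Fin.sum_univ_six] using this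
    · simp only [DD_d, dg_mk, mk_mul, mk_add, mk_eq]
      filter_upwards [hn] with x hx
      have := hh x hx 1
      simpa [fd x hx, E, Fin.sum_univ_six] using this
    · simp only [DD_d, dg_mk, mk_mul, mk_add, mk_eq]
      filter_upwards [hn] with x hx
      have := hh x hx 2
      simp [fd x hx, E, Fin.sum_univ_six] at this
      linear_combination this
    · simp only [DD_d, dg_mk, mk_mul, mk_add, mk_eq]
      filter_upwards [hn] with x hx
      have := hh x hx 3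
      simpa [fd x hx, E, Fin.sum_univ_six] using this
    · simp only [DD_d, dg_mk, mk_mul, mk_sub]
      exact unit_mk _ (sub_ne_zero.2 hne)
  have k1 := main 0 1 2 fun x hx l => (hE x hx l).1
  have k2 := main 3 4 5 fun x hx l => (hE x hx l).2
  have := (h p hp ![0, 0, 1, 0, 0, 0]).2 (by simp [fd p hp, Fin.sum_univ_six, k1, k2])
  rw [mem_D] at this
  simp at this

lemma hL (j : Fin 2) (x : V 6) : HasFDerivAt (L j)
    (![-(pr 1).smulRight (pr 0) - (x 3 • pr 4 + x 4 • pr 3).smulRight (pr 3),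
      -(pr 4).smulRight (pr 3)] j) x := by
  have h : ∀ i, HasFDerivAt (fun z : V 6 => z i) (pr i) x := fun i => hasFDerivAt_apply i x
  fin_cases j
  · have := ((hasFDerivAt_const (pr 2) x).fun_sub ((h 1).smul_const (pr 0))).fun_sub
      (((h 3).fun_mul (h 4)).smul_const (pr 3))
    rw [zero_sub] at this
    exact this
  · have := (hasFDerivAt_const (pr 5) x).fun_sub ((h 4).smul_const (pr 3))
    rw [zero_sub] at this
    exact this

lemma dE (k : Fin 4) (x v : V 6) : fderiv ℝ (E k) x v =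
    ![![0, 0, v 1, 0, 0, 0], 0, ![0, 0, x 3 * v 4 + x 4 * v 3, 0, 0, v 4], 0] k := by
  have h : ∀ i, HasFDerivAt (fun z : V 6 => z i) (pr i) x := fun i => hasFDerivAt_apply i x
  have hd : DifferentiableAt ℝ (E k) x := by
    rw [differentiableAt_pi]
    intro i
    fin_cases k <;> fin_cases i <;> simp [E] <;> fun_prop
  ext i
  have e : fderiv ℝ (E k) x v i = fderiv ℝ (fun z => E k z i) x v := by
    rw [fderiv_apply hd i]
    rfl
  rw [e]
  fin_cases k <;> fin_cases i <;> simp [E, (h _).fderiv, ((h 3).fun_mul (h 4)).fderiv, pr]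

end Pool.Agent.H.MP_08c0df_gt
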